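import Pool.Agent.N658.FF.Stm3

/-! # FF2/Far: the energies of the terms far from the new group are additive -/

open scoped BigOperators InnerProductSpace Matrix Classical ComplexOrder

noncomputable section

namespace Pool.Agent.N141.FF

open Pool.Agent.N658.FF

section
variable {E : Type} [NormedAddCommGroup E] [InnerProductSpace ℂ E] [FiniteDimensional ℂ E]
variable {T : Type}

lemma nb_subset [Fintype T] [DecidableEq T] (adj : T → T → Prop) (j : ℕ) (X : Finset T) :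
    Nb adj j X ⊆ X.biUnion fun y => Nb adj j {y} := by
  induction j with
  | zero =>
    intro x hx
    simp only [Nb] at hx ⊢
    simp [hx]
  | succ j ih =>
    intro x hx
    simp only [Nb, Finset.mem_union, Finset.mem_filter, Finset.mem_univ, true_and,
      Finset.mem_biUnion] at hx ⊢
    rcases hx with hx | ⟨z, hz, hzx⟩
    · obtain ⟨y, hy, hxy⟩ := Finset.mem_biUnion.1 (ih hx)
      exact ⟨y, hy, Or.inl hxy⟩
    · obtain ⟨y, hy, hzy⟩ := Finset.mem_biUnion.1 (ih hz)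
      exact ⟨y, hy, Or.inr ⟨z, hzy, hzx⟩⟩

lemma card_nb [Fintype T] [DecidableEq T] (adj : T → T → Prop) {Γ : ℝ} (hG : Grow adj Γ)
    (j : ℕ) (X : Finset T) :
    ((Nb adj j X).card : ℝ) ≤ X.card * (Γ * ((j : ℝ) + 1) ^ 2) := by
  calc ((Nb adj j X).card : ℝ) ≤ ((X.biUnion fun y => Nb adj j {y}).card : ℝ) := by
        exact_mod_cast Finset.card_le_card (nb_subset adj j X)
    _ ≤ ((∑ y ∈ X, (Nb adj j {y}).card : ℕ) : ℝ) := by
        exact_mod_cast Finset.card_biUnion_le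
    _ = ∑ y ∈ X, ((Nb adj j {y}).card : ℝ) := by push_cast; rfl
    _ ≤ ∑ _y ∈ X, Γ * ((j : ℝ) + 1) ^ 2 := Finset.sum_le_sum fun y _ => hG y j
    _ = X.card * (Γ * ((j : ℝ) + 1) ^ 2) := by
        rw [Finset.sum_const, nsmul_eq_mul]

lemma nb_mono [Fintype T] [DecidableEq T] (adj : T → T → Prop) (X : Finset T) {i j : ℕ}
    (h : i ≤ j) : Nb adj i X ⊆ Nb adj j X := by
  induction h with
  | refl => exact Finset.Subset.refl _
  | step _ ih =>
    refine ih.trans ?_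
    intro x hx
    simp only [Nb, Finset.mem_union]
    exact Or.inl hx

omit [FiniteDimensional ℂ E] in
lemma G_mono (V : T → Submodule ℂ E) {A B : Finset T} (h : A ⊆ B) : G V B ≤ G V A := by
  unfold G
  refine le_iInf₂ fun x hx => ?_
  exact iInf₂_le x (h hx)

lemma pr_symm (K : Submodule ℂ E) (a b : E) : ⟪pr K a, b⟫_ℂ = ⟪a, pr K b⟫_ℂ :=
  Submodule.inner_starProjection_left_eq_right K a b

lemma norm_sub_pr_le (K : Submodule ℂ E) (a : E) : ‖a - pr K a‖ ≤ ‖a‖ := by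
  have h := Submodule.norm_sq_eq_add_norm_sq_starProjection a K
  have h2 : Kᗮ.starProjection a = a - K.starProjection a :=
    Submodule.starProjection_orthogonal_val a
  rw [h2] at h
  have h3 : 0 ≤ ‖K.starProjection a‖ ^ 2 := by positivity
  refine le_of_sq_le_sq ?_ (norm_nonneg _)
  change ‖a - K.starProjection a‖ ^ 2 ≤ ‖a‖ ^ 2
  linarith

lemma pr_mem (K : Submodule ℂ E) (a : E) : pr K a ∈ K :=
  Submodule.starProjection_apply_mem K a

lemma val_le [DecidableEq T] {V : T → Submodule ℂ E} {B X Nm Np : Finset T} {η : ℝ}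
    {K : E →L[ℂ] E} (hη : 0 ≤ η) (h : Impl V B X Nm Np η K) {x : T} (hx : x ∉ Np) {u : E}
    (hu : u ∈ G V B) :
    |(⟪pr (G V (B ∪ X)) u - pr (V x) (pr (G V (B ∪ X)) u),
        u - pr (G V (B ∪ X)) u⟫_ℂ).re| ≤ 2 * η * ‖u‖ ^ 2 := by
  set P := pr (G V (B ∪ X)) with hP
  set a := P u with ha
  set b := u - a with hb
  have haB : a ∈ G V B := G_mono V Finset.subset_union_left (pr_mem _ u)
  have hbB : b ∈ G V B := Submodule.sub_mem _ hu haB
  have hPb : P b = 0 := by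
    rw [hb, map_sub]
    have : P a = a := Submodule.starProjection_eq_self_iff.2 (pr_mem _ u)
    rw [this]
    exact sub_self _
  have hbu : ‖b‖ ≤ ‖u‖ := norm_sub_pr_le _ u
  have hKb : ‖K b‖ ≤ η * ‖u‖ := by
    have := h.approx b hbB
    rw [← hP, hPb, zero_sub, norm_neg] at this
    exact this.trans (mul_le_mul_of_nonneg_left hbu hη)
  have hcom : K (pr (V x) b) = pr (V x) (K b) := by
    have := h.comm x hx
    have h2 := congrArg (fun A : E →L[ℂ] E => A b) this.eq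
    simpa using h2
  have e1 : ⟪a - pr (V x) a, b⟫_ℂ = ⟪a - K u, b - pr (V x) b⟫_ℂ + ⟪u, K b - pr (V x) (K b)⟫_ℂ := by
    rw [inner_sub_left, pr_symm (V x), ← inner_sub_right]
    have : ⟪u, K b - pr (V x) (K b)⟫_ℂ = ⟪K u, b - pr (V x) b⟫_ℂ := by
      rw [h.symm, map_sub K b (pr (V x) b), hcom]
    rw [this, ← inner_add_left]
    congr 1
    abel
  rw [e1]
  have n1 : ‖⟪a - K u, b - pr (V x) b⟫_ℂ‖ ≤ η * ‖u‖ ^ 2 := by
    calc ‖⟪a - K u, b - pr (V x) b⟫_ℂ‖ ≤ ‖a - K u‖ * ‖b - pr (V x) b‖ := norm_inner_le_norm _ _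
      _ ≤ (η * ‖u‖) * ‖u‖ := by
          refine mul_le_mul (h.approx u hu) ((norm_sub_pr_le _ b).trans hbu) (norm_nonneg _) ?_
          positivity
      _ = η * ‖u‖ ^ 2 := by ring
  have n2 : ‖⟪u, K b - pr (V x) (K b)⟫_ℂ‖ ≤ η * ‖u‖ ^ 2 := by
    calc ‖⟪u, K b - pr (V x) (K b)⟫_ℂ‖ ≤ ‖u‖ * ‖K b - pr (V x) (K b)‖ := norm_inner_le_norm _ _
      _ ≤ ‖u‖ * (η * ‖u‖) := by
          refine mul_le_mul_of_nonneg_left ((norm_sub_pr_le _ (K b)).trans hKb) (norm_nonneg _)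
      _ = η * ‖u‖ ^ 2 := by ring
  calc |(⟪a - K u, b - pr (V x) b⟫_ℂ + ⟪u, K b - pr (V x) (K b)⟫_ℂ).re|
      ≤ ‖⟪a - K u, b - pr (V x) b⟫_ℂ + ⟪u, K b - pr (V x) (K b)⟫_ℂ‖ := Complex.abs_re_le_norm _
    _ ≤ ‖⟪a - K u, b - pr (V x) b⟫_ℂ‖ + ‖⟪u, K b - pr (V x) (K b)⟫_ℂ‖ := norm_add_le _ _
    _ ≤ 2 * η * ‖u‖ ^ 2 := by linarith

lemma sum_far [Fintype T] [DecidableEq T] (adj : T → T → Prop) (X : Finset T) (c : ℕ)
    (f : T → ℝ) (q s : ℝ) (hq : 0 ≤ q) (hs : 0 ≤ s) {Γ : ℝ} (hG : Grow adj Γ)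
    (hf : ∀ (k : ℕ) (x : T), x ∉ Nb adj (k * c + 1) X → f x ≤ 2 * q ^ k * s) (K n : ℕ) :
    ∑ x ∈ Finset.univ \ Nb adj (K * c + 1) X, f x ≤
      ∑ i ∈ Finset.range n, 2 * q ^ (K + i) * s * (X.card *
        (Γ * ((((K + i + 1) * c + 1 : ℕ) : ℝ) + 1) ^ 2)) +
      ∑ x ∈ Finset.univ \ Nb adj ((K + n) * c + 1) X, f x := by
  induction n with
  | zero => simp
  | succ n ih =>
    refine ih.trans ?_
    rw [Finset.sum_range_succ, add_assoc]
    refine add_le_add le_rfl ?_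
    have hsub : Nb adj ((K + n) * c + 1) X ⊆ Nb adj ((K + n + 1) * c + 1) X :=
      nb_mono adj X (by nlinarith)
    have hsplit : ∑ x ∈ Finset.univ \ Nb adj ((K + n) * c + 1) X, f x =
        ∑ x ∈ Nb adj ((K + n + 1) * c + 1) X \ Nb adj ((K + n) * c + 1) X, f x +
        ∑ x ∈ Finset.univ \ Nb adj ((K + n + 1) * c + 1) X, f x := by
      rw [← Finset.sum_union]
      · congr 1
        ext x
        have := @hsub x
        simp only [Finset.mem_sdiff, Finset.mem_univ, true_and, Finset.mem_union]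
        tauto
      · rw [Finset.disjoint_left]
        intro x hx hx2
        exact (Finset.mem_sdiff.1 hx2).2 (Finset.mem_sdiff.1 hx).1
    rw [hsplit]
    refine add_le_add ?_ le_rfl
    calc ∑ x ∈ Nb adj ((K + n + 1) * c + 1) X \ Nb adj ((K + n) * c + 1) X, f x
        ≤ ∑ x ∈ Nb adj ((K + n + 1) * c + 1) X \ Nb adj ((K + n) * c + 1) X,
            2 * q ^ (K + n) * s := by
          refine Finset.sum_le_sum fun x hx => hf (K + n) x ?_
          exact (Finset.mem_sdiff.1 hx).2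
      _ = ((Nb adj ((K + n + 1) * c + 1) X \ Nb adj ((K + n) * c + 1) X).card : ℝ) *
            (2 * q ^ (K + n) * s) := by
          rw [Finset.sum_const, nsmul_eq_mul]
      _ ≤ (X.card * (Γ * ((((K + n + 1) * c + 1 : ℕ) : ℝ) + 1) ^ 2)) *
            (2 * q ^ (K + n) * s) := by
          refine mul_le_mul_of_nonneg_right ?_ (by positivity)
          refine le_trans ?_ (card_nb adj hG _ X)
          exact_mod_cast Finset.card_le_card Finset.sdiff_subset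
      _ = _ := by ring

lemma rest_le [Fintype T] [DecidableEq T] (adj : T → T → Prop) (X : Finset T) (c : ℕ)
    (f : T → ℝ) (q s : ℝ) (hq : 0 ≤ q) (hs : 0 ≤ s)
    (hf : ∀ (k : ℕ) (x : T), x ∉ Nb adj (k * c + 1) X → f x ≤ 2 * q ^ k * s) (N : ℕ) :
    ∑ x ∈ Finset.univ \ Nb adj (N * c + 1) X, f x ≤ Fintype.card T * (2 * s) * q ^ N := by
  calc ∑ x ∈ Finset.univ \ Nb adj (N * c + 1) X, f x
      ≤ ∑ x ∈ Finset.univ \ Nb adj (N * c + 1) X, 2 * q ^ N * s := by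
        refine Finset.sum_le_sum fun x hx => hf N x ?_
        exact (Finset.mem_sdiff.1 hx).2
    _ = ((Finset.univ \ Nb adj (N * c + 1) X).card : ℝ) * (2 * q ^ N * s) := by
        rw [Finset.sum_const, nsmul_eq_mul]
    _ ≤ Fintype.card T * (2 * q ^ N * s) := by
        refine mul_le_mul_of_nonneg_right ?_ (by positivity)
        exact_mod_cast Finset.card_le_univ _
    _ = _ := by ring

end

lemma summable_aux (ρ : ℝ) (h0 : 0 ≤ ρ) (h1 : ρ < 1) (c : ℕ) :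
    Summable fun j : ℕ => ρ ^ j * ((((j + 1) * c + 1 : ℕ) : ℝ) + 1) ^ 2 := by
  have hn : ‖ρ‖ < 1 := by rwa [Real.norm_of_nonneg h0]
  have s2 := summable_pow_mul_geometric_of_norm_lt_one 2 hn
  have s1 := summable_pow_mul_geometric_of_norm_lt_one 1 hn
  have s0 := summable_pow_mul_geometric_of_norm_lt_one 0 hn
  have := ((s2.mul_left ((c : ℝ) ^ 2)).add (s1.mul_left (2 * c * ((c : ℝ) + 2)))).add
    (s0.mul_left (((c : ℝ) + 2) ^ 2))
  refine this.congr fun j => ?_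
  push_cast
  ring

theorem far (h0 : StmColor) (h : StmImpl) : StmFar := by
  intro g Δ Γ hΔ
  set q : ℝ := Real.sqrt ((g : ℝ) ^ 2 / ((g : ℝ) ^ 2 + Δ)) with hq
  have hq0 : 0 ≤ q := Real.sqrt_nonneg _
  have hq1 : q < 1 := by
    rw [hq, Real.sqrt_lt' one_pos, one_pow, div_lt_one (by positivity)]
    linarith
  set ρ : ℝ := Real.sqrt q with hρ
  have hρ0 : 0 ≤ ρ := Real.sqrt_nonneg _
  have hρ1 : ρ < 1 := by
    rw [hρ, Real.sqrt_lt' one_pos, one_pow]
    exact hq1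
  have hρq : ρ * ρ = q := Real.mul_self_sqrt hq0
  set S : ℝ := ∑' j : ℕ, ρ ^ j * ((((j + 1) * (g + 1) + 1 : ℕ) : ℝ) + 1) ^ 2 with hS
  have hsum := summable_aux ρ hρ0 hρ1 (g + 1)
  have hS0 : 0 ≤ S := tsum_nonneg fun j => by positivity
  refine ⟨2 * |Γ| * S + 1, ρ, by positivity, hρ0, hρ1, ?_⟩
  intro E _ _ _ T _ _ V adj hL hGap hGr B X K u hu
  obtain ⟨col, hcol⟩ := h0 T adj hL.symm g hL.deg
  set f : T → ℝ := fun x => |(⟪pr (G V (B ∪ X)) u - pr (V x) (pr (G V (B ∪ X)) u),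
        u - pr (G V (B ∪ X)) u⟫_ℂ).re| with hf
  have hfb : ∀ (k : ℕ) (x : T), x ∉ Nb adj (k * (g + 1) + 1) X → f x ≤ 2 * q ^ k * ‖u‖ ^ 2 := by
    intro k x hx
    obtain ⟨Kk, hK⟩ := h E T V adj g Δ hL hΔ.le hGap (g + 1) col hcol B X k
    exact val_le (pow_nonneg hq0 k) hK hx hu
  have hgr2 : Grow adj |Γ| := fun y j => (hGr y j).trans
    (mul_le_mul_of_nonneg_right (le_abs_self Γ) (by positivity))
  have key : ∀ n : ℕ, ∑ x ∈ Finset.univ \ Nb adj (K * (g + 1) + 1) X, f x ≤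
      2 * |Γ| * S * X.card * ρ ^ K * ‖u‖ ^ 2 + Fintype.card T * (2 * ‖u‖ ^ 2) * q ^ (K + n) := by
    intro n
    refine (sum_far adj X (g + 1) f q (‖u‖ ^ 2) hq0 (by positivity) hgr2 hfb K n).trans ?_
    refine add_le_add ?_ (rest_le adj X (g + 1) f q (‖u‖ ^ 2) hq0 (by positivity) hfb (K + n))
    calc ∑ i ∈ Finset.range n, 2 * q ^ (K + i) * ‖u‖ ^ 2 * (X.card *
        (|Γ| * ((((K + i + 1) * (g + 1) + 1 : ℕ) : ℝ) + 1) ^ 2))
        ≤ ∑ i ∈ Finset.range n, 2 * |Γ| * X.card * ρ ^ K * ‖u‖ ^ 2 *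
            (ρ ^ (K + i) * ((((K + i + 1) * (g + 1) + 1 : ℕ) : ℝ) + 1) ^ 2) := by
          refine Finset.sum_le_sum fun i _ => ?_
          have e : q ^ (K + i) = ρ ^ (K + i) * ρ ^ (K + i) := by
            rw [← hρq, mul_pow]
          have e2 : ρ ^ (K + i) ≤ ρ ^ K := pow_le_pow_of_le_one hρ0 hρ1.le (by omega)
          rw [e]
          calc 2 * (ρ ^ (K + i) * ρ ^ (K + i)) * ‖u‖ ^ 2 * (X.card *
                (|Γ| * ((((K + i + 1) * (g + 1) + 1 : ℕ) : ℝ) + 1) ^ 2))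
              = (2 * |Γ| * X.card * ‖u‖ ^ 2 * (ρ ^ (K + i) *
                ((((K + i + 1) * (g + 1) + 1 : ℕ) : ℝ) + 1) ^ 2)) * ρ ^ (K + i) := by ring
            _ ≤ (2 * |Γ| * X.card * ‖u‖ ^ 2 * (ρ ^ (K + i) *
                ((((K + i + 1) * (g + 1) + 1 : ℕ) : ℝ) + 1) ^ 2)) * ρ ^ K :=
                mul_le_mul_of_nonneg_left e2 (by positivity)
            _ = _ := by ring
      _ = 2 * |Γ| * X.card * ρ ^ K * ‖u‖ ^ 2 * ∑ i ∈ Finset.range n,
            (ρ ^ (K + i) * ((((K + i + 1) * (g + 1) + 1 : ℕ) : ℝ) + 1) ^ 2) := by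
          rw [Finset.mul_sum]
      _ ≤ 2 * |Γ| * X.card * ρ ^ K * ‖u‖ ^ 2 * S := by
          refine mul_le_mul_of_nonneg_left ?_ (by positivity)
          have e3 : ∑ i ∈ Finset.range n,
              (ρ ^ (K + i) * ((((K + i + 1) * (g + 1) + 1 : ℕ) : ℝ) + 1) ^ 2) =
              ∑ j ∈ (Finset.range n).map (addLeftEmbedding K),
                ρ ^ j * ((((j + 1) * (g + 1) + 1 : ℕ) : ℝ) + 1) ^ 2 := by
            rw [Finset.sum_map]
            rfl
          rw [e3]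
          exact hsum.sum_le_tsum _ fun j _ => by positivity
      _ = _ := by ring
  have hlim : Filter.Tendsto (fun n : ℕ => 2 * |Γ| * S * X.card * ρ ^ K * ‖u‖ ^ 2 +
      Fintype.card T * (2 * ‖u‖ ^ 2) * q ^ (K + n)) Filter.atTop
      (nhds (2 * |Γ| * S * X.card * ρ ^ K * ‖u‖ ^ 2 +
      Fintype.card T * (2 * ‖u‖ ^ 2) * 0)) := by
    refine tendsto_const_nhds.add (Filter.Tendsto.const_mul _ ?_)
    have := tendsto_pow_atTop_nhds_zero_of_lt_one hq0 hq1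
    exact this.comp (Filter.tendsto_atTop_mono (fun n => Nat.le_add_left n K) Filter.tendsto_id)
  have h1 := ge_of_tendsto' hlim key
  rw [mul_zero, add_zero] at h1
  refine h1.trans ?_
  have : 0 ≤ (X.card : ℝ) * ρ ^ K * ‖u‖ ^ 2 := by positivity
  nlinarith

end Pool.Agent.N141.FF
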